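import Mathlib
set_option linter.style.longLine false
namespace Pool.Agent.H.MP_7bf93d_lc
open Set Cardinal Relation

variable {V : Type}

def Sm (s : Set V) : Prop := #s ≤ ℵ₁

lemma sm_iUnion {ι : Type} (hι : #ι ≤ ℵ₁) (f : ι → Set V) (h : ∀ i, Sm (f i)) : Sm (⋃ i, f i) := by
  unfold Sm
  calc #(⋃ i, f i) ≤ #ι * ⨆ i, #(f i) := mk_iUnion_le f
    _ ≤ ℵ₁ * ℵ₁ := mul_le_mul' hι (ciSup_le' h)
    _ = ℵ₁ := mul_eq_self (aleph0_le_aleph 1)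

lemma Sm.mono {s t : Set V} (h : Sm t) (hs : s ⊆ t) : Sm s := (mk_le_mk_of_subset hs).trans h

lemma Sm.union {s t : Set V} (h : Sm s) (h' : Sm t) : Sm (s ∪ t) :=
  (mk_union_le s t).trans ((add_le_add h h').trans (add_eq_self (aleph0_le_aleph 1)).le)

lemma sm_c {s : Set V} (h : s.Countable) : Sm s := h.le_aleph0.trans (aleph0_le_aleph 1)

lemma pk {Q Z : Set V} (h : ¬ Sm Q) (hz : Sm Z) : ∃ u ∈ Q, u ∉ Z := by
  by_contra hc; push Not at hc; exact h (hz.mono hc)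

lemma pkc {Q Z : Set V} (h : ¬ Q.Countable) (hz : Z.Countable) : ∃ u ∈ Q, u ∉ Z := by
  by_contra hc; push Not at hc; exact h (hz.mono hc)

lemma rc {T α : Type} [LinearOrder T] [WellFoundedLT T] (Φ : Set α → α → Prop) (h : ∀ S, ∃ y, Φ S y) :
    ∃ f : T → α, ∀ ζ, Φ (f '' Iio ζ) (f ζ) := by
  choose F hF using h
  let f : T → α := (wellFounded_lt (α := T)).fix (fun ζ IH => F {x | ∃ z, ∃ h : z < ζ, IH z h = x})
  refine ⟨f, fun ζ => ?_⟩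
  have : f ζ = F (f '' Iio ζ) := by
    show (wellFounded_lt (α := T)).fix _ ζ = _
    rw [WellFounded.fix_eq]; congr 1; ext x; simp [f]
  rw [this]; exact hF _

def Cn (G : V → V → Prop) (W : Set V) : V → V → Prop := ReflTransGen (fun a b => a ∈ W ∧ b ∈ W ∧ G a b)

lemma Cn.mono {G : V → V → Prop} {W W' : Set V} (h : W ⊆ W') {x y : V} (c : Cn G W x y) : Cn G W' x y := by
  induction c with
  | refl => exact ReflTransGen.refl
  | tail _ r ih => exact ReflTransGen.tail ih ⟨h r.1, h r.2.1, r.2.2⟩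

lemma Cn.symm {G : V → V → Prop} (hG : ∀ a b, G a b → G b a) {W : Set V} {x y : V} (c : Cn G W x y) :
    Cn G W y x := by
  induction c with
  | refl => exact ReflTransGen.refl
  | tail _ r ih => exact ReflTransGen.head ⟨r.2.1, r.1, hG _ _ r.2.2⟩ ih

lemma Cn.fin {G : V → V → Prop} {W : Set V} {x y : V} (c : Cn G W x y) :
    ∃ F : Set V, F.Finite ∧ F ⊆ W ∧ Cn G F x y := by
  induction c with
  | refl => exact ⟨∅, finite_empty, empty_subset _, ReflTransGen.refl⟩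
  | @tail b d _ r ih =>
    obtain ⟨F, h1, h2, h3⟩ := ih
    refine ⟨insert b (insert d F), (h1.insert _).insert _, ?_, ?_⟩
    · exact insert_subset r.1 (insert_subset r.2.1 h2)
    · exact ReflTransGen.tail (h3.mono ((subset_insert _ _).trans (subset_insert _ _)))
        ⟨by simp, by simp, r.2.2⟩

/-- connected after removing any countable set -/
def HC (G : V → V → Prop) (W : Set V) : Prop :=
  ¬ W.Countable ∧ ∀ S : Set V, S.Countable → ∀ x ∈ W \ S, ∀ y ∈ W \ S, Cn G (W \ S) x y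

abbrev T1 := (ℵ₁ : Cardinal.{0}).ord.ToType

lemma t1c (a : T1) : (Iio a).Countable := by
  rw [← Cardinal.le_aleph0_iff_set_countable, ← Cardinal.lt_aleph_one_iff]
  simpa using mk_Iio_lt a (by simp)

lemma t1m : #T1 = ℵ₁ := by simp

lemma t1b {s : Set T1} (h : s.Countable) : ∃ g, ∀ a ∈ s, a < g := by
  have h1 : (⋃ a ∈ s, insert a (Iio a)).Countable := h.biUnion fun a _ => (t1c a).insert a
  have h2 : ¬ (Set.univ : Set T1).Countable := by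
    rw [← Cardinal.le_aleph0_iff_set_countable, mk_univ, t1m]; exact aleph0_lt_aleph_one.not_ge
  obtain ⟨g, -, hg⟩ := pkc h2 h1
  refine ⟨g, fun a ha => ?_⟩
  by_contra hc
  exact hg (mem_biUnion ha ((not_lt.1 hc).eq_or_lt))

lemma shrink {G : V → V → Prop} {W : Set V} (h : HC G W) : ∃ A : Set V, #A = ℵ₁ ∧ HC G A := by
  have step : ∀ 𝒮 : Set (Set V), ∃ A : Set V, A.Countable ∧ A ⊆ W ∧ ((⋃₀ 𝒮).Countable → ⋃₀ 𝒮 ⊆ W →
      (∃ n ∈ A, n ∉ ⋃₀ 𝒮) ∧ ∀ x ∈ ⋃₀ 𝒮, ∀ y ∈ ⋃₀ 𝒮, Cn G (A \ (⋃₀ 𝒮 \ {x, y})) x y) := by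
    intro 𝒮
    by_cases hc : (⋃₀ 𝒮).Countable ∧ ⋃₀ 𝒮 ⊆ W
    swap
    · exact ⟨∅, countable_empty, empty_subset _, fun a b => absurd ⟨a, b⟩ hc⟩
    obtain ⟨hc, hw⟩ := hc
    set U := ⋃₀ 𝒮
    obtain ⟨n, hn, hn'⟩ := pkc h.1 hc
    have : ∀ x : U, ∀ y : U, ∃ F : Set V, F.Finite ∧ F ⊆ W \ (U \ {x.1, y.1}) ∧ Cn G F x y := fun x y =>
      (h.2 _ (hc.mono sdiff_subset) x ⟨hw x.2, by simp⟩ y ⟨hw y.2, by simp⟩).fin
    choose F h1 h2 h3 using this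
    have := hc.to_subtype
    refine ⟨insert n (⋃ x, ⋃ y, F x y), (countable_iUnion fun x => countable_iUnion fun y =>
      (h1 x y).countable).insert n, insert_subset hn (iUnion₂_subset fun x y => (h2 x y).trans sdiff_subset),
      fun _ _ => ⟨⟨n, by simp, hn'⟩, fun x hx y hy => (h3 ⟨x, hx⟩ ⟨y, hy⟩).mono fun z hz => ?_⟩⟩
    exact ⟨mem_insert_of_mem _ (mem_iUnion₂.2 ⟨_, _, hz⟩), (h2 _ _ hz).2⟩
  obtain ⟨f, hf⟩ := rc (T := T1) _ step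
  have hU : ∀ ζ, (⋃₀ (f '' Iio ζ)).Countable := fun ζ =>
    ((t1c ζ).image f).sUnion (by rintro _ ⟨z, -, rfl⟩; exact (hf z).1)
  have hW : ∀ ζ, ⋃₀ (f '' Iio ζ) ⊆ W := fun ζ => by
    rintro x ⟨_, ⟨z, -, rfl⟩, hx⟩; exact (hf z).2.1 hx
  have cov : ∀ S : Set V, S.Countable → ∃ ζ, S ∩ (⋃ z, f z) ⊆ ⋃₀ (f '' Iio ζ) := by
    intro S hS
    have : ∀ x : ↥(S ∩ ⋃ z, f z), ∃ z, x.1 ∈ f z := fun x => mem_iUnion.1 x.2.2
    choose g hg using this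
    have := (hS.mono (inter_subset_left (t := ⋃ z, f z))).to_subtype
    obtain ⟨ζ, hζ⟩ := t1b (countable_range g)
    exact ⟨ζ, fun x hx => ⟨_, ⟨g ⟨x, hx⟩, hζ _ ⟨_, rfl⟩, rfl⟩, hg ⟨x, hx⟩⟩⟩
  have unc : ¬ (⋃ z, f z).Countable := by
    intro hc
    obtain ⟨ζ, hζ⟩ := cov _ hc
    obtain ⟨n, h1, h2⟩ := ((hf ζ).2.2 (hU ζ) (hW ζ)).1
    exact h2 (hζ ⟨mem_iUnion.2 ⟨_, h1⟩, mem_iUnion.2 ⟨_, h1⟩⟩)
  refine ⟨⋃ z, f z, le_antisymm (sm_iUnion t1m.le f fun z => sm_c (hf z).1) ?_, unc, ?_⟩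
  · rw [← not_lt, Cardinal.lt_aleph_one_iff, Cardinal.le_aleph0_iff_set_countable]; exact unc
  intro S hS x hx y hy
  obtain ⟨ζ, hζ⟩ := cov _ ((hS.insert y).insert x)
  refine (((hf ζ).2.2 (hU ζ) (hW ζ)).2 x (hζ ⟨by simp, hx.1⟩) y (hζ ⟨by simp, hy.1⟩)).mono ?_
  intro z hz
  refine ⟨mem_iUnion.2 ⟨_, hz.1⟩, fun hs => hz.2 ⟨hζ ⟨by simp [hs], mem_iUnion.2 ⟨_, hz.1⟩⟩, ?_⟩⟩
  rintro (rfl | rfl)
  exacts [hx.2 hs, hy.2 hs]

end Pool.Agent.H.MP_7bf93d_lc
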